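import Pool.Agent.H91.Roy

set_option autoImplicit false

open Pool.Agent.H91.Roy in
theorem Pool.Agent.Results.MP_b81f9a_an.Counter.result :
    ∃ α β γ : ℝ, 0 < α ∧ 0 < β ∧ 0 < γ ∧
    (∀ x : ℝ, Summable fun n : ℕ => x ^ n / Real.Gamma (α * n + β) ^ γ) ∧
    (ContDiffOn ℝ (⊤ : ℕ∞) (fun x => F α β γ (-x)) (Set.Ioi 0) ∧
      ∀ (k : ℕ) (x : ℝ), 0 < x → 0 ≤ (-1) ^ k * iteratedDeriv k (fun x => F α β γ (-x)) x) ∧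
    ∃ z : ℝ, 0 < z ∧ z < 1 ∧ 1 < z + γ * (z ^ (β - α) - z ^ β) :=
  main
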